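import Mathlib
import Pool.Agent.Helper35.HG.StE

/-!
Project HG (MP_925021_gt), module PQ2B: polynomial inequalities, `a = 0`.
-/

set_option autoImplicit false

namespace Helper75.HG

open Helper35.HG Helper35.HC Helper35.HSF Helper35.MS Helper35.PI Helper35.PI2 Helper32.CL

lemma sgn {P d X : ℝ} (hd : 0 < d) (hP : P ≤ 0) (h : X = P * d) : X ≤ 0 := by
  rw [h]; exact mul_nonpos_of_nonpos_of_nonneg hP hd.le

theorem hPQ2B : StPQ2B := by
  intro u g hu hug hg
  have hg0 : 0 ≤ g := hu.trans hug
  have hug' : (1 + u) ≠ 0 := by positivity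
  have hgg' : (1 + g) ≠ 0 := by positivity
  refine ⟨fun hg6 => ⟨?_, fun hgp => ?_⟩, fun hg6 => ⟨?_, fun hX => ?_, fun hX => ?_⟩⟩
  · rcases eq_or_lt_of_le hg0 with h0 | hgp
    · have hu0 : u = 0 := le_antisymm (by linarith) hu
      subst hu0
      rw [← h0]
      unfold cC cD0 D1f
      norm_num
    · obtain ⟨t, rfl⟩ : ∃ t, u = t * g := ⟨u / g, by field_simp⟩
      have ht0 : 0 ≤ t := nonneg_of_mul_nonneg_left hu hgp
      have ht1 : t ≤ 1 := by
        by_contra hc
        push Not at hc
        nlinarith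
      have hp := Poly.a0 t g ht0 ht1 hg0 hg6
      refine sgn (d := g / ((1 + t * g) * (1 + g))) (by positivity) hp ?_
      unfold cC cD0 D1f
      field_simp
      ring
  · obtain ⟨t, rfl⟩ : ∃ t, u = t * g := ⟨u / g, by field_simp⟩
    have ht0 : 0 ≤ t := nonneg_of_mul_nonneg_left hu hgp
    have ht1 : t ≤ 1 := by
      by_contra hc
      push Not at hc
      nlinarith
    have hp := Poly.a10 t g ht0 ht1 hg0 hg6
    refine sgn (d := g / ((1 + t * g) * (1 + g))) (by positivity) hp ?_
    unfold cA0 cC cD0 D1f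
    field_simp
    ring
  · have hgp : 0 < g := by linarith
    obtain ⟨t, rfl⟩ : ∃ t, u = t * g := ⟨u / g, by field_simp⟩
    have ht0 : 0 ≤ t := nonneg_of_mul_nonneg_left hu hgp
    have ht1 : t ≤ 1 := by
      by_contra hc
      push Not at hc
      nlinarith
    have hp := Poly.b0 t g ht0 ht1 hg6 hg
    refine sgn (d := g / ((1 + t * g) * (1 + g))) (by positivity) hp ?_
    unfold cC cD0 D1f
    field_simp
    ring
  · have hgp : 0 < g := by linarith
    have hu1 : u ≤ 403 / 10000 := by
      by_contra hc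
      push Not at hc
      nlinarith
    have hp := Poly.b10 u g hu hu1 hg6 hg
    refine sgn (d := 1 / ((1 + u) * (1 + g))) (by positivity) hp ?_
    unfold cA0 cC cD0 D1f
    field_simp
    ring
  · have hgp : 0 < g := by linarith
    have hu1 : 1 / 25 ≤ u := by
      by_contra hc
      push Not at hc
      nlinarith
    have hgd : 0 < g - 1 / 25 := by linarith
    obtain ⟨v, hv⟩ : ∃ v, g = v + 1 / 25 := ⟨g - 1 / 25, by ring⟩
    have hv0 : 0 < v := by linarith
    obtain ⟨t, ht⟩ : ∃ t, u = 1 / 25 + t * v := ⟨(u - 1 / 25) / v, by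
      rw [div_mul_cancel₀ _ hv0.ne']; ring⟩
    have ht0 : 0 ≤ t := by
      have : 0 ≤ t * v := by linarith
      exact nonneg_of_mul_nonneg_left this hv0
    have ht1 : t ≤ 1 := by
      by_contra hc
      push Not at hc
      nlinarith
    have hp := Poly.b20 t g ht0 ht1 hg6 hg
    have hd : 0 < 1 / ((1 + u) * (1 + g)) := by positivity
    refine sgn (d := 1 / ((1 + u) * (1 + g))) hd hp ?_
    clear hp hd ht1 hu1 hgd hX hug hg6 hg hgp hg0 hu hug' hgg'
    subst hv ht
    have hn1 : (1 + (1 / 25 + t * v)) ≠ 0 := by positivity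
    have hn2 : (1 + (v + 1 / 25)) ≠ 0 := by positivity
    unfold cA0 cC cD0 D1f
    field_simp
    ring

end Helper75.HG
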