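import Pool.Agent.Helper80.HG.St

/-!
# Project HG (MP_1bacb5_al), module LB: levels of a group of germs
-/

set_option autoImplicit false

namespace Pool.Agent.Helper75.HG

open Pool.Agent.Helper80.HG Filter Topology Asymptotics
open scoped commutatorElement

theorem tExp (n : ℕ) : Tendsto (fun x : ℝ => Real.exp^[n] x) atTop atTop :=
  Real.tendsto_exp_atTop.iterate n

theorem tLog (n : ℕ) : Tendsto (fun x : ℝ => Real.log^[n] x) atTop atTop :=
  Real.tendsto_log_atTop.iterate n

theorem logExp (n : ℕ) (x : ℝ) : Real.log^[n] (Real.exp^[n] x) = x := by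
  have h : Function.LeftInverse Real.log Real.exp := Real.log_exp
  exact h.iterate n x

theorem expLog (n : ℕ) : ∀ᶠ y : ℝ in atTop, Real.exp^[n] (Real.log^[n] y) = y := by
  induction n with
  | zero => exact Eventually.of_forall fun _ => rfl
  | succ n ih =>
    filter_upwards [ih, (tLog n).eventually (eventually_gt_atTop 0)] with y h1 h2
    rw [Function.iterate_succ_apply, Function.iterate_succ_apply', Real.exp_log h2, h1]

theorem memExp {H : Set (ℝ → ℝ)} (hH : Bas H) (n : ℕ) : (fun x : ℝ => Real.exp^[n] x) ∈ H := by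
  induction n with
  | zero => exact hH.id
  | succ n ih =>
    have h := hH.comp Real.exp hH.exp _ ih (tExp n)
    refine hH.congr _ h _ (Eventually.of_forall fun x => ?_)
    exact (Function.iterate_succ_apply' Real.exp n x).symm

theorem memLog {H : Set (ℝ → ℝ)} (hH : Bas H) (n : ℕ) : (fun x : ℝ => Real.log^[n] x) ∈ H := by
  induction n with
  | zero => exact hH.id
  | succ n ih =>
    have h := hH.comp Real.log hH.log _ ih (tLog n)
    refine hH.congr _ h _ (Eventually.of_forall fun x => ?_)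
    exact (Function.iterate_succ_apply' Real.log n x).symm

theorem rep_lv {H : Set (ℝ → ℝ)} (hH : Bas H) {Γ : Type} [Group Γ] {θ : Γ → ℝ → ℝ} (hθ : RB H θ)
    (n : ℕ) : Rep H (lv θ n) where
  mem g := by
    have h1 := hH.comp _ (hθ.mem g) _ (memExp hH n) (tExp n)
    exact hH.comp _ (memLog hH n) _ h1 ((hθ.top g).comp (tExp n))
  top g := (tLog n).comp ((hθ.top g).comp (tExp n))
  one := by
    filter_upwards [(tExp n).eventually hθ.one] with x hx
    unfold lv
    rw [hx, logExp]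
  mul g h := by
    filter_upwards [(tExp n).eventually (hθ.mul g h),
      ((hθ.top h).comp (tExp n)).eventually (expLog n)] with x hx h2
    unfold lv
    rw [hx]
    rw [Function.comp_apply] at h2
    rw [h2]

/-- the subgroup of small elements of an action -/
def smallGp {H : Set (ℝ → ℝ)} {Γ : Type} [Group Γ] {φ : Γ → ℝ → ℝ} (hφ : Rep H φ) : Subgroup Γ where
  carrier := {g | Tendsto (fun x => φ g x - x) atTop (𝓝 0)}
  one_mem' := by
    refine (tendsto_congr' ?_).2 tendsto_const_nhds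
    filter_upwards [hφ.one] with x hx
    rw [hx, sub_self]
  mul_mem' := by
    intro g h hg hh
    have h1 : Tendsto (fun x => (φ g (φ h x) - φ h x) + (φ h x - x)) atTop (𝓝 (0 + 0)) :=
      Tendsto.add (Tendsto.comp hg (hφ.top h)) hh
    rw [add_zero] at h1
    refine (tendsto_congr' ?_).2 h1
    filter_upwards [hφ.mul g h] with x hx
    rw [hx]
    ring
  inv_mem' := by
    intro g hg
    have h1 : Tendsto (fun x => -(φ g (φ g⁻¹ x) - φ g⁻¹ x)) atTop (𝓝 (-0)) :=
      Tendsto.neg (Tendsto.comp hg (hφ.top g⁻¹))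
    rw [neg_zero] at h1
    refine (tendsto_congr' ?_).2 h1
    filter_upwards [hφ.mul g g⁻¹, hφ.one] with x hx h2
    rw [← hx, mul_inv_cancel, h2]
    ring

theorem hLB : StLB := by
  intro hLC H hH Γ _ θ hθ
  obtain ⟨c1, c2, c3, c4⟩ := hLC
  have hmem : ∀ (n : ℕ) (g : Γ), g ∈ smallGp (rep_lv hH hθ n) ↔ Lvl (θ g) n n := fun n g => Iff.rfl
  have hlev : ∀ g : Γ, ∃ m n : ℕ, Lvl (θ g) m n := fun g => hH.lev (θ g) (hθ.mem g) (hθ.top g)
  have hmul : ∀ (g h : Γ) (m n m' n' : ℕ), Lvl (θ g) m n → Lvl (θ h) m' n' →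
      Lvl (θ (g * h)) (m + m') (n + n') := by
    intro g h m n m' n' h1 h2
    refine c4 _ _ _ _ ?_ (c2 _ _ _ _ _ _ (hθ.top g) (hθ.top h) h1 h2)
    filter_upwards [hθ.mul g h] with x hx
    exact hx.symm
  have hone : Lvl (θ 1) 0 0 := by
    refine c4 (fun x => x) _ 0 0 ?_ ?_
    · filter_upwards [hθ.one] with x hx
      exact hx.symm
    · unfold Lvl
      simp
  have hinv : ∀ g : Γ, ∃ m n m' n' : ℕ, Lvl (θ g) m n ∧ Lvl (θ g⁻¹) m' n' ∧ m + m' = n + n' := by
    intro g
    obtain ⟨m, n, h1⟩ := hlev g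
    obtain ⟨m', n', h2⟩ := hlev g⁻¹
    refine ⟨m, n, m', n', h1, h2, ?_⟩
    have h3 := hmul g g⁻¹ m n m' n' h1 h2
    rw [mul_inv_cancel] at h3
    have h4 := c3 _ _ _ _ _ (hθ.top 1) h3 hone
    omega
  refine ⟨fun n => smallGp (rep_lv hH hθ n), ?_, ?_, ?_, ?_⟩
  · exact monotone_nat_of_le_succ fun n g hg => c1 _ _ _ hg
  · intro a b
    obtain ⟨m1, n1, m2, n2, ha, ha', e1⟩ := hinv a
    obtain ⟨m3, n3, m4, n4, hb, hb', e2⟩ := hinv b
    refine ⟨m1 + m3 + m2 + m4, ?_⟩
    have h := hmul _ _ _ _ _ _ (hmul _ _ _ _ _ _ (hmul _ _ _ _ _ _ ha hb) ha') hb'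
    have e : n1 + n3 + n2 + n4 = m1 + m3 + m2 + m4 := by omega
    rw [e] at h
    rw [commutatorElement_def]
    exact h
  · intro h n
    obtain ⟨m1, n1, m2, n2, ha, ha', e1⟩ := hinv h
    refine ⟨m1 + n + m2, fun g hg => ?_⟩
    have h1 := hmul _ _ _ _ _ _ (hmul _ _ _ _ _ _ ha hg) ha'
    have e : n1 + n + n2 = m1 + n + m2 := by omega
    rw [e] at h1
    exact h1
  · intro n
    refine ⟨⟨fun g => (rep_lv hH hθ n).mem _, fun g => (rep_lv hH hθ n).top _, (rep_lv hH hθ n).one,
      fun g h => (rep_lv hH hθ n).mul _ _⟩, fun g => g.2, fun g hg => ?_⟩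
    have h1 : ∀ᶠ x in atTop, θ (g : Γ) (Real.exp^[n] x) = Real.exp^[n] x := by
      filter_upwards [hg, ((hθ.top (g : Γ)).comp (tExp n)).eventually (expLog n)] with x hx h2
      rw [Function.comp_apply] at h2
      rw [← h2]
      have h3 : Real.log^[n] (θ (g : Γ) (Real.exp^[n] x)) = x := hx
      rw [h3]
    filter_upwards [(tLog n).eventually h1, expLog n] with y h2 h3
    rw [h3] at h2
    exact h2

end Pool.Agent.Helper75.HG
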